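import Pool.Agent.Y516.OJ.Stm

set_option autoImplicit false

/-!
# One joint probe: the inequality for one element of the universe
-/

namespace Pool.Agent.Y147.OJ

open Finset Pool.Agent.Y516.OJ

/-- the few pairs with a bad component -/
theorem card_bad {I J : Type} [DecidableEq I] [DecidableEq J] (S : Finset (I × J)) (Δ : ℕ)
    (bf : Finset I) (bg : Finset J)
    (h1 : ∀ i, (S.filter fun d => d.1 = i).card ≤ Δ)
    (h2 : ∀ j, (S.filter fun d => d.2 = j).card ≤ Δ) :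
    S.card ≤ (S.filter fun d => d.1 ∉ bf ∧ d.2 ∉ bg).card + Δ * (bf.card + bg.card) := by
  have hsub : S ⊆ (S.filter fun d => d.1 ∉ bf ∧ d.2 ∉ bg) ∪
      ((bf.biUnion fun i => S.filter fun d => d.1 = i) ∪
        (bg.biUnion fun j => S.filter fun d => d.2 = j)) := by
    intro d hd
    by_cases ha : d.1 ∈ bf
    · exact mem_union_right _ (mem_union_left _ (mem_biUnion.2 ⟨d.1, ha, mem_filter.2 ⟨hd, rfl⟩⟩))
    · by_cases hb : d.2 ∈ bg
      · exact mem_union_right _ (mem_union_right _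
          (mem_biUnion.2 ⟨d.2, hb, mem_filter.2 ⟨hd, rfl⟩⟩))
      · exact mem_union_left _ (mem_filter.2 ⟨hd, ha, hb⟩)
  have e1 : (bf.biUnion fun i => S.filter fun d => d.1 = i).card ≤ bf.card * Δ :=
    card_biUnion_le_card_mul _ _ _ fun i _ => h1 i
  have e2 : (bg.biUnion fun j => S.filter fun d => d.2 = j).card ≤ bg.card * Δ :=
    card_biUnion_le_card_mul _ _ _ fun j _ => h2 j
  have h3 := card_le_card hsub
  have h4 := card_union_le (S.filter fun d => d.1 ∉ bf ∧ d.2 ∉ bg)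
      ((bf.biUnion fun i => S.filter fun d => d.1 = i) ∪
        (bg.biUnion fun j => S.filter fun d => d.2 = j))
  have h5 := card_union_le (bf.biUnion fun i => S.filter fun d => d.1 = i)
        (bg.biUnion fun j => S.filter fun d => d.2 = j)
  have h6 : Δ * (bf.card + bg.card) = bf.card * Δ + bg.card * Δ := by ring
  omega

/-- the kernel is at most one minus the indicator of the union of the rectangles -/
theorem kernel_le {A B I J : Type} [DecidableEq A] [DecidableEq B] [DecidableEq I] [DecidableEq J]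
    (K : A → B → ℝ) (S : Finset (I × J)) (ev : I → Finset A) (ew : J → Finset B)
    (hK1 : ∀ a b, K a b ≤ 1)
    (hD1 : ∀ i ∈ S.image Prod.fst, ∀ i' ∈ S.image Prod.fst, i ≠ i' → Disjoint (ev i) (ev i'))
    (hD2 : ∀ j ∈ S.image Prod.snd, ∀ j' ∈ S.image Prod.snd, j ≠ j' → Disjoint (ew j) (ew j'))
    (hK : ∀ d ∈ S, ∀ a ∈ ev d.1, ∀ b ∈ ew d.2, K a b = 0) (a : A) (b : B) :
    K a b ≤ 1 - ∑ d ∈ S, (if a ∈ ev d.1 then (1 : ℝ) else 0) * (if b ∈ ew d.2 then (1 : ℝ) else 0) := by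
  by_cases hex : ∃ d ∈ S, a ∈ ev d.1 ∧ b ∈ ew d.2
  · obtain ⟨d, hd, ha, hb⟩ := hex
    have h1 : ∑ d ∈ S, (if a ∈ ev d.1 then (1 : ℝ) else 0) * (if b ∈ ew d.2 then (1 : ℝ) else 0) =
        1 := by
      rw [sum_eq_single_of_mem d hd]
      · rw [if_pos ha, if_pos hb, mul_one]
      · intro d' hd' hne
        by_contra h0
        have ha' : a ∈ ev d'.1 := by
          by_contra hc
          rw [if_neg hc, zero_mul] at h0
          exact h0 rfl
        have hb' : b ∈ ew d'.2 := by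
          by_contra hc
          rw [if_neg hc, mul_zero] at h0
          exact h0 rfl
        apply hne
        refine Prod.ext ?_ ?_
        · by_contra hc
          exact disjoint_left.1 (hD1 d'.1 (mem_image_of_mem _ hd') d.1 (mem_image_of_mem _ hd) hc)
            ha' ha
        · by_contra hc
          exact disjoint_left.1 (hD2 d'.2 (mem_image_of_mem _ hd') d.2 (mem_image_of_mem _ hd) hc)
            hb' hb
    rw [h1, hK d hd a ha b hb, sub_self]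
  · push Not at hex
    have h1 : ∑ d ∈ S, (if a ∈ ev d.1 then (1 : ℝ) else 0) * (if b ∈ ew d.2 then (1 : ℝ) else 0) =
        0 := by
      refine sum_eq_zero fun d hd => ?_
      by_cases ha : a ∈ ev d.1
      · rw [if_neg (hex d hd ha), mul_zero]
      · rw [if_neg ha, zero_mul]
    rw [h1, sub_zero]
    exact hK1 a b

theorem lhs_le {A B I J : Type} [Fintype A] [Fintype B] [DecidableEq A] [DecidableEq B]
    [DecidableEq I] [DecidableEq J]
    (P f : A → ℝ) (Q g : B → ℝ) (K : A → B → ℝ) (S : Finset (I × J))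
    (ev : I → Finset A) (ew : J → Finset B)
    (hP : ∀ a, 0 ≤ P a) (hQ : ∀ b, 0 ≤ Q b) (hf : ∀ a, 0 ≤ f a) (hg : ∀ b, 0 ≤ g b)
    (hK1 : ∀ a b, K a b ≤ 1)
    (hD1 : ∀ i ∈ S.image Prod.fst, ∀ i' ∈ S.image Prod.fst, i ≠ i' → Disjoint (ev i) (ev i'))
    (hD2 : ∀ j ∈ S.image Prod.snd, ∀ j' ∈ S.image Prod.snd, j ≠ j' → Disjoint (ew j) (ew j'))
    (hK : ∀ d ∈ S, ∀ a ∈ ev d.1, ∀ b ∈ ew d.2, K a b = 0)
    (hEf : ∑ a, P a * f a = 1) (hEg : ∑ b, Q b * g b = 1) :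
    ∑ a, ∑ b, P a * Q b * (f a * g b * K a b) ≤
      1 - ∑ d ∈ S, (∑ a ∈ ev d.1, P a * f a) * (∑ b ∈ ew d.2, Q b * g b) := by
  have h1 : ∑ a, ∑ b, P a * Q b * (f a * g b * K a b) ≤
      ∑ a, ∑ b, (P a * f a) * (Q b * g b) *
        (1 - ∑ d ∈ S, (if a ∈ ev d.1 then (1 : ℝ) else 0) * (if b ∈ ew d.2 then (1 : ℝ) else 0)) := by
    refine sum_le_sum fun a _ => sum_le_sum fun b _ => ?_
    have h2 : P a * Q b * (f a * g b * K a b) = (P a * f a) * (Q b * g b) * K a b := by ring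
    rw [h2]
    exact mul_le_mul_of_nonneg_left (kernel_le K S ev ew hK1 hD1 hD2 hK a b)
      (mul_nonneg (mul_nonneg (hP a) (hf a)) (mul_nonneg (hQ b) (hg b)))
  refine h1.trans (le_of_eq ?_)
  have h2 : ∀ a b, (P a * f a) * (Q b * g b) *
        (1 - ∑ d ∈ S, (if a ∈ ev d.1 then (1 : ℝ) else 0) * (if b ∈ ew d.2 then (1 : ℝ) else 0)) =
      (P a * f a) * (Q b * g b) - ∑ d ∈ S, (if a ∈ ev d.1 then P a * f a else 0) *
        (if b ∈ ew d.2 then Q b * g b else 0) := by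
    intro a b
    rw [mul_sub, mul_one, mul_sum]
    congr 1
    refine sum_congr rfl fun d _ => ?_
    by_cases ha : a ∈ ev d.1 <;> by_cases hb : b ∈ ew d.2 <;> simp [ha, hb]
  simp only [h2, sum_sub_distrib]
  have h3 : ∑ a, ∑ b, (P a * f a) * (Q b * g b) = 1 := by
    rw [← sum_mul_sum, hEf, hEg, mul_one]
  have h4 : ∑ a, ∑ b, ∑ d ∈ S, (if a ∈ ev d.1 then P a * f a else 0) *
        (if b ∈ ew d.2 then Q b * g b else 0) =
      ∑ d ∈ S, (∑ a ∈ ev d.1, P a * f a) * (∑ b ∈ ew d.2, Q b * g b) := by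
    have h5 : ∀ a, ∑ b, ∑ d ∈ S, (if a ∈ ev d.1 then P a * f a else 0) *
        (if b ∈ ew d.2 then Q b * g b else 0) =
        ∑ d ∈ S, ∑ b, (if a ∈ ev d.1 then P a * f a else 0) *
        (if b ∈ ew d.2 then Q b * g b else 0) := fun a => sum_comm
    simp only [h5]
    rw [sum_comm]
    refine sum_congr rfl fun d _ => ?_
    rw [← sum_mul_sum]
    congr 1
    · rw [← sum_filter]
      congr 1
      ext a
      simp
    · rw [← sum_filter]
      congr 1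
      ext b
      simp
  rw [h3, h4]

theorem hom {A : Type} [Fintype A] (P f : A → ℝ) (δ c : ℝ) (hδ : 0 < δ) (hc : 0 ≤ c)
    (hP : ∀ a, 0 ≤ P a) (hf : ∀ a, 0 ≤ f a) :
    (∑ a, P a * (c * f a) ^ (1 + δ)) ^ (1 / (1 + δ)) =
      c * (∑ a, P a * f a ^ (1 + δ)) ^ (1 / (1 + δ)) := by
  have h1 : ∑ a, P a * (c * f a) ^ (1 + δ) = c ^ (1 + δ) * ∑ a, P a * f a ^ (1 + δ) := by
    rw [mul_sum]
    refine sum_congr rfl fun a _ => ?_
    rw [Real.mul_rpow hc (hf a)]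
    ring
  rw [h1, Real.mul_rpow (Real.rpow_nonneg hc _)
    (sum_nonneg fun a _ => mul_nonneg (hP a) (Real.rpow_nonneg (hf a) _)), ← Real.rpow_mul hc,
    mul_one_div_cancel (by positivity), Real.rpow_one]

/-- the normalised case -/
theorem core (hN : NormStm) {A B I J : Type} [Fintype A] [Fintype B] [DecidableEq A] [DecidableEq B]
    [DecidableEq I] [DecidableEq J]
    (P f : A → ℝ) (Q g : B → ℝ) (K : A → B → ℝ) (δ π₀ : ℝ) (Δ : ℕ) (S : Finset (I × J))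
    (ev : I → Finset A) (ew : J → Finset B)
    (hP : ∀ a, 0 ≤ P a) (hP1 : ∑ a, P a = 1) (hQ : ∀ b, 0 ≤ Q b) (hQ1 : ∑ b, Q b = 1)
    (hf : ∀ a, 0 ≤ f a) (hg : ∀ b, 0 ≤ g b)
    (hK1 : ∀ a b, K a b ≤ 1)
    (hδ : 0 < δ) (hδ1 : δ ≤ 1) (hπ : 0 < π₀) (hΔ : 2 * π₀ * Δ ≤ δ) (hS : π₀ ^ 2 * S.card ≤ 1)
    (h1 : ∀ i, (S.filter fun d => d.1 = i).card ≤ Δ)
    (h2 : ∀ j, (S.filter fun d => d.2 = j).card ≤ Δ)
    (hD1 : ∀ i ∈ S.image Prod.fst, ∀ i' ∈ S.image Prod.fst, i ≠ i' → Disjoint (ev i) (ev i'))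
    (hD2 : ∀ j ∈ S.image Prod.snd, ∀ j' ∈ S.image Prod.snd, j ≠ j' → Disjoint (ew j) (ew j'))
    (hE1 : ∀ i ∈ S.image Prod.fst, π₀ ≤ ∑ a ∈ ev i, P a)
    (hE2 : ∀ j ∈ S.image Prod.snd, π₀ ≤ ∑ b ∈ ew j, Q b)
    (hK : ∀ d ∈ S, ∀ a ∈ ev d.1, ∀ b ∈ ew d.2, K a b = 0)
    (hEf : ∑ a, P a * f a = 1) (hEg : ∑ b, Q b * g b = 1) :
    ∑ a, ∑ b, P a * Q b * (f a * g b * K a b) ≤
    (1 - π₀ ^ 2 * S.card / 32) *
      ((∑ a, P a * f a ^ (1 + δ)) ^ (1 / (1 + δ)) *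
        (∑ b, Q b * g b ^ (1 + δ)) ^ (1 / (1 + δ))) := by
  classical
  set bf : Finset I := (S.image Prod.fst).filter fun i =>
    ∑ a ∈ ev i, P a * f a ≤ (∑ a ∈ ev i, P a) / 4 with hbf
  set bg : Finset J := (S.image Prod.snd).filter fun j =>
    ∑ b ∈ ew j, Q b * g b ≤ (∑ b ∈ ew j, Q b) / 4 with hbg
  have n1 := hN A I P f δ π₀ bf ev hP hP1 hf hEf hδ hδ1 hπ
    (fun i hi i' hi' => hD1 i (mem_filter.1 hi).1 i' (mem_filter.1 hi').1)
    (fun i hi => hE1 i (mem_filter.1 hi).1) (fun i hi => (mem_filter.1 hi).2)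
  have n2 := hN B J Q g δ π₀ bg ew hQ hQ1 hg hEg hδ hδ1 hπ
    (fun i hi i' hi' => hD2 i (mem_filter.1 hi).1 i' (mem_filter.1 hi').1)
    (fun i hi => hE2 i (mem_filter.1 hi).1) (fun i hi => (mem_filter.1 hi).2)
  have hl := lhs_le P f Q g K S ev ew hP hQ hf hg hK1 hD1 hD2 hK hEf hEg
  have hpos : ∀ d : I × J, 0 ≤ (∑ a ∈ ev d.1, P a * f a) * (∑ b ∈ ew d.2, Q b * g b) := fun d =>
    mul_nonneg (sum_nonneg fun a _ => mul_nonneg (hP a) (hf a))
      (sum_nonneg fun b _ => mul_nonneg (hQ b) (hg b))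
  have hT : (π₀ ^ 2 / 16) * ((S.filter fun d => d.1 ∉ bf ∧ d.2 ∉ bg).card : ℝ) ≤
      ∑ d ∈ S, (∑ a ∈ ev d.1, P a * f a) * (∑ b ∈ ew d.2, Q b * g b) := by
    have t1 : ∑ d ∈ S.filter (fun d => d.1 ∉ bf ∧ d.2 ∉ bg),
        (∑ a ∈ ev d.1, P a * f a) * (∑ b ∈ ew d.2, Q b * g b) ≤
        ∑ d ∈ S, (∑ a ∈ ev d.1, P a * f a) * (∑ b ∈ ew d.2, Q b * g b) :=
      sum_le_sum_of_subset_of_nonneg (filter_subset _ _) fun d _ _ => hpos d
    refine le_trans ?_ t1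
    have t2 : ∀ d ∈ S.filter (fun d => d.1 ∉ bf ∧ d.2 ∉ bg), π₀ ^ 2 / 16 ≤
        (∑ a ∈ ev d.1, P a * f a) * (∑ b ∈ ew d.2, Q b * g b) := by
      intro d hd
      obtain ⟨hdS, hd1, hd2⟩ := mem_filter.1 hd
      have m1 : d.1 ∈ S.image Prod.fst := mem_image_of_mem _ hdS
      have m2 : d.2 ∈ S.image Prod.snd := mem_image_of_mem _ hdS
      have u1 : (∑ a ∈ ev d.1, P a) / 4 < ∑ a ∈ ev d.1, P a * f a := by
        by_contra hc
        exact hd1 (mem_filter.2 ⟨m1, not_lt.1 hc⟩)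
      have u2 : (∑ b ∈ ew d.2, Q b) / 4 < ∑ b ∈ ew d.2, Q b * g b := by
        by_contra hc
        exact hd2 (mem_filter.2 ⟨m2, not_lt.1 hc⟩)
      have v1 := hE1 d.1 m1
      have v2 := hE2 d.2 m2
      have w1 : π₀ / 4 ≤ ∑ a ∈ ev d.1, P a * f a := by linarith
      have w2 : π₀ / 4 ≤ ∑ b ∈ ew d.2, Q b * g b := by linarith
      have := mul_le_mul w1 w2 (by positivity) (le_trans (by positivity) w1)
      calc π₀ ^ 2 / 16 = π₀ / 4 * (π₀ / 4) := by ring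
        _ ≤ _ := this
    have t3 := card_nsmul_le_sum _ _ _ t2
    rw [nsmul_eq_mul] at t3
    linarith
  have hc := card_bad S Δ bf bg h1 h2
  have hc' : (S.card : ℝ) ≤ ((S.filter fun d => d.1 ∉ bf ∧ d.2 ∉ bg).card : ℝ) +
      Δ * ((bf.card : ℝ) + bg.card) := by exact_mod_cast hc
  set nf : ℝ := ((bf.card : ℕ) : ℝ) with hnf
  set ng : ℝ := ((bg.card : ℕ) : ℝ) with hng
  have hnf0 : 0 ≤ nf := Nat.cast_nonneg _
  have hng0 : 0 ≤ ng := Nat.cast_nonneg _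
  set s : ℝ := ((S.card : ℕ) : ℝ) with hs
  have hs0 : 0 ≤ s := Nat.cast_nonneg _
  set F := (∑ a, P a * f a ^ (1 + δ)) ^ (1 / (1 + δ)) with hF
  set G := (∑ b, Q b * g b ^ (1 + δ)) ^ (1 / (1 + δ)) with hG
  have hx : 0 ≤ δ * π₀ * nf / 12 := by positivity
  have hy : 0 ≤ δ * π₀ * ng / 12 := by positivity
  have hFG : 1 + δ * π₀ * (nf + ng) / 12 ≤ F * G := by
    have n3 := mul_le_mul n1 n2 (by positivity) (le_trans (by positivity) n1)
    have n4 : (1 + δ * π₀ * nf / 12) * (1 + δ * π₀ * ng / 12) =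
        1 + δ * π₀ * (nf + ng) / 12 + (δ * π₀ * nf / 12) * (δ * π₀ * ng / 12) := by ring
    have n5 := mul_nonneg hx hy
    rw [n4] at n3
    linarith
  have hs1 : 0 ≤ 1 - π₀ ^ 2 * s / 32 := by linarith
  refine le_trans ?_ (mul_le_mul_of_nonneg_left hFG hs1)
  have hπ2 : 0 ≤ π₀ ^ 2 / 16 := by positivity
  have k1 := mul_le_mul_of_nonneg_left hc' hπ2
  have hD0 : (0 : ℝ) ≤ Δ := Nat.cast_nonneg _
  have k2 : 2 * π₀ * Δ * (π₀ * (nf + ng)) ≤ δ * (π₀ * (nf + ng)) :=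
    mul_le_mul_of_nonneg_right hΔ (by positivity)
  have k3 : 31 / 32 * (δ * π₀ * (nf + ng) / 12) ≤
      (1 - π₀ ^ 2 * s / 32) * (δ * π₀ * (nf + ng) / 12) :=
    mul_le_mul_of_nonneg_right (by linarith) (by positivity)
  have k4 : 0 ≤ π₀ ^ 2 * (Δ * (nf + ng)) := by positivity
  have k5 : 0 ≤ π₀ ^ 2 * s := by positivity
  have r1 : (1 - π₀ ^ 2 * s / 32) * (1 + δ * π₀ * (nf + ng) / 12) =
      (1 - π₀ ^ 2 * s / 32) + (1 - π₀ ^ 2 * s / 32) * (δ * π₀ * (nf + ng) / 12) := by ring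
  have r2 : 2 * π₀ * Δ * (π₀ * (nf + ng)) = 2 * (π₀ ^ 2 * (Δ * (nf + ng))) := by ring
  have r3 : δ * (π₀ * (nf + ng)) = δ * π₀ * (nf + ng) := by ring
  have r4 : ∀ gg : ℝ, π₀ ^ 2 / 16 * (gg + Δ * (nf + ng)) =
      π₀ ^ 2 / 16 * gg + (π₀ ^ 2 * (Δ * (nf + ng))) / 16 := fun gg => by ring
  have r5 : π₀ ^ 2 / 16 * s = π₀ ^ 2 * s / 16 := by ring
  rw [r4, r5] at k1
  rw [r2, r3] at k2
  rw [r1]
  linarith

theorem one : NormStm → OneStm := by
  intro hN A B I J _ _ _ _ _ _ P f Q g K δ π₀ Δ S ev ew hP hP1 hQ hQ1 hf hg hK0 hK1 hδ hδ1 hπ hΔ hS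
    h1 h2 hD1 hD2 hE1 hE2 hK
  set Ef := ∑ a, P a * f a with hEf
  set Eg := ∑ b, Q b * g b with hEg
  have hEf0 : 0 ≤ Ef := sum_nonneg fun a _ => mul_nonneg (hP a) (hf a)
  have hEg0 : 0 ≤ Eg := sum_nonneg fun b _ => mul_nonneg (hQ b) (hg b)
  have hs1 : 0 ≤ 1 - π₀ ^ 2 * S.card / 32 := by linarith
  have hr : 0 ≤ (1 - π₀ ^ 2 * S.card / 32) *
      ((∑ a, P a * f a ^ (1 + δ)) ^ (1 / (1 + δ)) *
        (∑ b, Q b * g b ^ (1 + δ)) ^ (1 / (1 + δ))) :=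
    mul_nonneg hs1 (mul_nonneg
      (Real.rpow_nonneg (sum_nonneg fun a _ => mul_nonneg (hP a) (Real.rpow_nonneg (hf a) _)) _)
      (Real.rpow_nonneg (sum_nonneg fun b _ => mul_nonneg (hQ b) (Real.rpow_nonneg (hg b) _)) _))
  rcases eq_or_lt_of_le hEf0 with h0 | hEfp
  · have hz : ∀ a, P a * f a = 0 := fun a =>
      (sum_eq_zero_iff_of_nonneg fun a _ => mul_nonneg (hP a) (hf a)).1 (hEf ▸ h0.symm) a
        (mem_univ a)
    have : ∑ a, ∑ b, P a * Q b * (f a * g b * K a b) = 0 := by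
      refine sum_eq_zero fun a _ => sum_eq_zero fun b _ => ?_
      calc P a * Q b * (f a * g b * K a b) = (P a * f a) * (Q b * g b * K a b) := by ring
        _ = 0 := by rw [hz a, zero_mul]
    rw [this]
    exact hr
  rcases eq_or_lt_of_le hEg0 with h0 | hEgp
  · have hz : ∀ b, Q b * g b = 0 := fun b =>
      (sum_eq_zero_iff_of_nonneg fun b _ => mul_nonneg (hQ b) (hg b)).1 (hEg ▸ h0.symm) b
        (mem_univ b)
    have : ∑ a, ∑ b, P a * Q b * (f a * g b * K a b) = 0 := by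
      refine sum_eq_zero fun a _ => sum_eq_zero fun b _ => ?_
      calc P a * Q b * (f a * g b * K a b) = (Q b * g b) * (P a * f a * K a b) := by ring
        _ = 0 := by rw [hz b, zero_mul]
    rw [this]
    exact hr
  have hc := core hN P (fun a => f a / Ef) Q (fun b => g b / Eg) K δ π₀ Δ S ev ew hP hP1 hQ hQ1
    (fun a => div_nonneg (hf a) hEf0) (fun b => div_nonneg (hg b) hEg0) hK1 hδ hδ1 hπ hΔ hS
    h1 h2 hD1 hD2 hE1 hE2 hK
    (by
      have : ∑ a, P a * (f a / Ef) = (∑ a, P a * f a) / Ef := by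
        rw [sum_div]
        exact sum_congr rfl fun a _ => by ring
      rw [this, ← hEf, div_self hEfp.ne'])
    (by
      have : ∑ b, Q b * (g b / Eg) = (∑ b, Q b * g b) / Eg := by
        rw [sum_div]
        exact sum_congr rfl fun a _ => by ring
      rw [this, ← hEg, div_self hEgp.ne'])
  have e1 : ∑ a, ∑ b, P a * Q b * (f a * g b * K a b) =
      Ef * Eg * ∑ a, ∑ b, P a * Q b * ((f a / Ef) * (g b / Eg) * K a b) := by
    rw [mul_sum]
    refine sum_congr rfl fun a _ => ?_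
    rw [mul_sum]
    refine sum_congr rfl fun b _ => ?_
    field_simp
  have e2 := hom P (fun a => f a / Ef) δ Ef hδ hEf0 hP (fun a => div_nonneg (hf a) hEf0)
  have e3 := hom Q (fun b => g b / Eg) δ Eg hδ hEg0 hQ (fun b => div_nonneg (hg b) hEg0)
  simp only [mul_div_cancel₀ _ hEfp.ne'] at e2
  simp only [mul_div_cancel₀ _ hEgp.ne'] at e3
  rw [e1, e2, e3]
  calc Ef * Eg * ∑ a, ∑ b, P a * Q b * ((f a / Ef) * (g b / Eg) * K a b)
      ≤ Ef * Eg * ((1 - π₀ ^ 2 * S.card / 32) *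
      ((∑ a, P a * (f a / Ef) ^ (1 + δ)) ^ (1 / (1 + δ)) *
        (∑ b, Q b * (g b / Eg) ^ (1 + δ)) ^ (1 / (1 + δ)))) :=
        mul_le_mul_of_nonneg_left hc (by positivity)
    _ = _ := by ring

end Pool.Agent.Y147.OJ
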